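import Pool.Agent.H23.NVK.MTargets

/-!
# (MNR) the main term for fixed discriminant as a value of the functional `Ph` (abstract semigroup)
-/

set_option autoImplicit false

open MeasureTheory Set Filter
open scoped Real

namespace Pool.Agent.H64.NVK

open Pool.Agent.H23.NVK
open Pool.Agent.H31.CN (GR E lin mo al et E_mul E_zero lin_E)

open Classical in
/-- `r` represents the weight `W`, all moduli are prime to `Q` -/
inductive Rp {α : Type} (N : α → ℕ) (Q : Finset α) : ((α →₀ ℕ) → (α →₀ ℕ) → ℝ) → GR → Prop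
  | zero {W : (α →₀ ℕ) → (α →₀ ℕ) → ℝ} : (∀ e A, W e A = 0) → Rp N Q W 0
  | ind {W : (α →₀ ℕ) → (α →₀ ℕ) → ℝ} (a b : α →₀ ℕ) (k : ℝ) : (∀ p ∈ Q, a p = 0) →
      (∀ p ∈ Q, b p = 0) →
      (∀ e A, W e A = if (∀ p, a p ≤ A p) ∧ (∀ p, b p ≤ e p) then k else 0) →
      Rp N Q W ((k / ((nF N a : ℝ) * nF N b)) •
        E (Real.log (nF N a)) (Real.log (nF N a * (nF N b : ℝ) ^ 2)))
  | add {W W' W'' : (α →₀ ℕ) → (α →₀ ℕ) → ℝ} {r r' : GR} : Rp N Q W r → Rp N Q W' r' →
      (∀ e A, W'' e A = W e A + W' e A) → Rp N Q W'' (r + r')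

theorem Rp.congr {α : Type} {N : α → ℕ} {Q : Finset α} {W W' : (α →₀ ℕ) → (α →₀ ℕ) → ℝ}
    {r r' : GR} (h : Rp N Q W r)
    (hW : ∀ e A, W' e A = W e A) (hr : r' = r) : Rp N Q W' r' := by
  have := Rp.add h (Rp.zero (N := N) (Q := Q) (W := fun _ _ => 0) (fun _ _ => rfl)) (W'' := W')
    (by intro e A; rw [hW, add_zero])
  rw [add_zero] at this
  rw [hr]
  exact this

theorem Rp.sum {α : Type} {N : α → ℕ} {Q : Finset α} {ι : Type} (T : Finset ι)
    (W : ι → (α →₀ ℕ) → (α →₀ ℕ) → ℝ) (r : ι → GR)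
    (h : ∀ x ∈ T, Rp N Q (W x) (r x)) :
    Rp N Q (fun e A => ∑ x ∈ T, W x e A) (∑ x ∈ T, r x) := by
  classical
  induction T using Finset.induction_on with
  | empty => exact Rp.zero fun e A => by simp
  | insert x T hx ih =>
    rw [Finset.sum_insert hx]
    exact Rp.add (h x (Finset.mem_insert_self _ _))
      (ih fun y hy => h y (Finset.mem_insert_of_mem hy)) fun e A => Finset.sum_insert hx

theorem add_single_le {α : Type} {a A : α →₀ ℕ} {p : α} {i : ℕ} (ha : a p = 0) :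
    (∀ q, (a + Finsupp.single p i) q ≤ A q) ↔ (∀ q, a q ≤ A q) ∧ i ≤ A p := by
  classical
  constructor
  · intro h
    refine ⟨fun q => ?_, ?_⟩
    · have := h q
      rw [Finsupp.add_apply] at this
      omega
    · have := h p
      rw [Finsupp.add_apply, Finsupp.single_eq_same] at this
      omega
  · rintro ⟨h1, h2⟩ q
    rw [Finsupp.add_apply, Finsupp.single_apply]
    split_ifs with h
    · subst h
      rw [ha]
      omega
    · have := h1 q
      omega

open Classical in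
theorem Rp.mulk {α : Type} {N : α → ℕ} {ρ δ : ℝ} (hN : AxA N ρ δ) {p : α} {Q : Finset α}
    (hpQ : p ∉ Q) (i j : ℕ) (k : ℝ)
    {W : (α →₀ ℕ) → (α →₀ ℕ) → ℝ} {r : GR} (h : Rp N (insert p Q) W r) :
    Rp N Q (fun e A => W e A * if i ≤ A p ∧ j ≤ e p then k else 0)
      (r * ((k / ((N p : ℝ) ^ i * (N p : ℝ) ^ j)) •
        E (i * Real.log (N p)) ((i + 2 * j) * Real.log (N p)))) := by
  have hp2 := hN.two p
  have hp0 : (0 : ℝ) < N p := by
    have : 0 < N p := by omega
    exact_mod_cast this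
  induction h with
  | zero h =>
    rw [zero_mul]
    exact Rp.zero fun e A => by rw [h, zero_mul]
  | @ind W a b k' ha hb hW =>
    have ha0 := hN.nF_pos a
    have hb0 := hN.nF_pos b
    have hap : a p = 0 := ha p (Finset.mem_insert_self _ _)
    have hbp : b p = 0 := hb p (Finset.mem_insert_self _ _)
    have h1 := Rp.ind (N := N) (Q := Q)
      (W := fun e A => W e A * if i ≤ A p ∧ j ≤ e p then k else 0)
      (a + Finsupp.single p i) (b + Finsupp.single p j) (k' * k)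
      (by
        intro q hq
        have hqp : p ≠ q := by
          rintro rfl
          exact hpQ hq
        rw [Finsupp.add_apply, ha q (Finset.mem_insert_of_mem hq), Finsupp.single_apply,
          if_neg hqp, add_zero])
      (by
        intro q hq
        have hqp : p ≠ q := by
          rintro rfl
          exact hpQ hq
        rw [Finsupp.add_apply, hb q (Finset.mem_insert_of_mem hq), Finsupp.single_apply,
          if_neg hqp, add_zero]) (by
        intro e A
        rw [hW]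
        simp only [add_single_le hap, add_single_le hbp]
        by_cases h1 : ∀ q, a q ≤ A q <;> by_cases h2 : i ≤ A p <;>
          by_cases h3 : ∀ q, b q ≤ e q <;>
          by_cases h4 : j ≤ e p <;> simp [h1, h2, h3, h4])
    refine h1.congr (fun e A => rfl) ?_
    rw [smul_mul_smul_comm, E_mul, nF_add, nF_add, nF_single, nF_single]
    push_cast
    have e1 : Real.log (nF N a) + i * Real.log (N p) = Real.log (nF N a * (N p : ℝ) ^ i) := by
      rw [Real.log_mul ha0.ne' (by positivity), Real.log_pow]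
    have e2 : Real.log (nF N a * (nF N b : ℝ) ^ 2) + (i + 2 * j) * Real.log (N p) =
        Real.log (nF N a * (N p : ℝ) ^ i * (nF N b * (N p : ℝ) ^ j) ^ 2) := by
      rw [Real.log_mul (by positivity) (by positivity), Real.log_mul (by positivity) (by positivity),
        Real.log_mul (by positivity) (by positivity), Real.log_pow, Real.log_pow, Real.log_pow,
        Real.log_mul (by positivity) (by positivity), Real.log_pow]
      push_cast
      ring
    rw [e1, e2]
    congr 1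
    field_simp
  | @add W W' W'' r r' _ _ hW ih ih' =>
    rw [add_mul]
    exact Rp.add ih ih' fun e A => by rw [hW, add_mul]

open Classical in
theorem Rp.one {α : Type} {N : α → ℕ} {ρ δ : ℝ} (hN : AxA N ρ δ) {p : α} {Q : Finset α}
    (hpQ : p ∉ Q)
    {W : (α →₀ ℕ) → (α →₀ ℕ) → ℝ} {r : GR} (h : Rp N (insert p Q) W r) :
    Rp N Q (fun e A => W e A * ((if 1 ≤ A p then 1 else 0) + (if 1 ≤ e p then 1 else 0)))
      (r * (E 0 (Real.log (N p)) * al (N p))) := by
  have h1 := h.mulk hN hpQ 1 0 1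
  have h2 := h.mulk hN hpQ 0 1 1
  refine (Rp.add h1 h2 (W'' := fun e A => W e A * ((if 1 ≤ A p then 1 else 0) +
    (if 1 ≤ e p then 1 else 0))) ?_).congr (fun e A => rfl) ?_
  · intro e A
    simp only [Nat.zero_le, and_true, true_and]
    ring
  · rw [← mul_add]
    congr 1
    unfold al
    simp only [pow_one, pow_zero, Nat.cast_one, Nat.cast_zero, mul_one, one_mul, zero_mul,
      mul_zero, add_zero, zero_add]
    rw [mul_smul_comm, mul_add, E_mul, E_mul, smul_add]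
    congr 3 <;> ring_nf

open Classical in
theorem Rp.both {α : Type} {N : α → ℕ} {ρ δ : ℝ} (hN : AxA N ρ δ) {p : α} {Q : Finset α}
    (hpQ : p ∉ Q)
    {W : (α →₀ ℕ) → (α →₀ ℕ) → ℝ} {r : GR} (h : Rp N (insert p Q) W r) :
    Rp N Q (fun e A => W e A * ((if 2 ≤ A p then 1 else 0) +
        (if 1 ≤ A p ∧ 1 ≤ e p then 2 - 1 / (N p : ℝ) else 0) +
        (if 1 ≤ e p then 1 else 0) + (if 2 ≤ e p then 1 else 0)))
      (r * (E 0 (2 * Real.log (N p)) * (et (N p) + al (N p) ^ 2))) := by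
  have hp2 := hN.two p
  have hp0 : (0 : ℝ) < N p := by
    have : 0 < N p := by omega
    exact_mod_cast this
  have h1 := h.mulk hN hpQ 2 0 1
  have h2 := h.mulk hN hpQ 1 1 (2 - 1 / (N p : ℝ))
  have h3 := h.mulk hN hpQ 0 1 1
  have h4 := h.mulk hN hpQ 0 2 1
  have h12 := Rp.add h1 h2 (W'' := fun e A => W e A * ((if 2 ≤ A p then 1 else 0) +
    (if 1 ≤ A p ∧ 1 ≤ e p then 2 - 1 / (N p : ℝ) else 0))) (by
      intro e A
      simp only [Nat.zero_le, and_true]
      ring)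
  have h34 := Rp.add h3 h4 (W'' := fun e A => W e A * ((if 1 ≤ e p then 1 else 0) +
    (if 2 ≤ e p then 1 else 0))) (by
      intro e A
      simp only [Nat.zero_le, true_and]
      ring)
  refine (Rp.add h12 h34 (W'' := fun e A => W e A * ((if 2 ≤ A p then 1 else 0) +
        (if 1 ≤ A p ∧ 1 ≤ e p then 2 - 1 / (N p : ℝ) else 0) +
        (if 1 ≤ e p then 1 else 0) + (if 2 ≤ e p then 1 else 0))) ?_).congr (fun e A => rfl) ?_
  · intro e A
    ring
  · rw [← mul_add, ← mul_add, ← mul_add]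
    congr 1
    have hE : E (Real.log (N p)) 0 * E (Real.log (N p)) 0 = E (2 * Real.log (N p)) 0 := by
      rw [E_mul]; congr 1 <;> ring
    have hE2 : E (Real.log (N p)) 0 * E 0 (Real.log (N p)) =
        E (Real.log (N p)) (Real.log (N p)) := by
      rw [E_mul]; congr 1 <;> ring
    have hE3 : E 0 (Real.log (N p)) * E 0 (Real.log (N p)) = E 0 (2 * Real.log (N p)) := by
      rw [E_mul]; congr 1 <;> ring
    have hE4 : E 0 (Real.log (N p)) * E (Real.log (N p)) 0 =
        E (Real.log (N p)) (Real.log (N p)) := by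
      rw [E_mul]; congr 1 <;> ring
    have hal : al (N p) ^ 2 = (1 / (N p : ℝ) ^ 2) • (E (2 * Real.log (N p)) 0 +
        (2 : ℝ) • E (Real.log (N p)) (Real.log (N p)) + E 0 (2 * Real.log (N p))) := by
      unfold al
      rw [pow_two, smul_mul_smul_comm, add_mul, mul_add, mul_add, hE, hE2, hE3, hE4, two_smul]
      congr 1
      · field_simp
      · abel
    rw [hal]
    unfold et
    simp only [mul_add, mul_sub, mul_smul_comm, mul_one, E_mul, smul_add, smul_smul]
    simp only [pow_one, pow_zero, Nat.cast_one, Nat.cast_zero, mul_one, one_mul, zero_mul,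
      mul_zero, add_zero, zero_add, Nat.cast_ofNat]
    have a2 : (1 + 2 * 1 : ℝ) * Real.log (N p) = 2 * Real.log (N p) + Real.log (N p) := by ring
    have a3 : (2 * 2 : ℝ) * Real.log (N p) = 2 * Real.log (N p) + 2 * Real.log (N p) := by ring
    have a4 : ((2 : ℝ) - 1 / (N p : ℝ)) / ((N p : ℝ) * (N p : ℝ)) =
        1 / (N p : ℝ) ^ 2 * 2 - 1 / (N p : ℝ) ^ 3 := by
      field_simp
    rw [a3, a4]
    try rw [a2]
    try rw [show (1 + 2 : ℝ) * Real.log (N p) = 2 * Real.log (N p) + Real.log (N p) by ring]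
    rw [sub_smul]
    abel

open Classical in
theorem Rp.prod {α : Type} {N : α → ℕ} {ρ δ : ℝ} (hN : AxA N ρ δ) (S₁ S₂ : Finset α)
    (Q : Finset α) :
    ∀ (W : (α →₀ ℕ) → (α →₀ ℕ) → ℝ) (r : GR), Rp N Q W r →
      Rp N ∅ (fun e A => W e A * ∏ p ∈ Q, (if p ∈ S₁ ∧ p ∈ S₂ then
        ((if 2 ≤ A p then 1 else 0) +
          (if 1 ≤ A p ∧ 1 ≤ e p then 2 - 1 / (N p : ℝ) else 0) +
          (if 1 ≤ e p then 1 else 0) + (if 2 ≤ e p then 1 else 0) : ℝ)
        else ((if 1 ≤ A p then 1 else 0) + (if 1 ≤ e p then 1 else 0) : ℝ)))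
        (r * ∏ p ∈ Q, (if p ∈ S₁ ∧ p ∈ S₂ then
          E 0 (2 * Real.log (N p)) * (et (N p) + al (N p) ^ 2)
          else E 0 (Real.log (N p)) * al (N p))) := by
  induction Q using Finset.induction_on with
  | empty =>
    intro W r h
    simpa using h
  | insert p Q hpQ ih =>
    intro W r h
    by_cases hd : p ∈ S₁ ∧ p ∈ S₂
    · refine (ih _ _ (h.both hN hpQ)).congr (fun e A => ?_) ?_
      · rw [Finset.prod_insert hpQ, if_pos hd, mul_assoc]
      · rw [Finset.prod_insert hpQ, if_pos hd]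
        ring
    · refine (ih _ _ (h.one hN hpQ)).congr (fun e A => ?_) ?_
      · rw [Finset.prod_insert hpQ, if_neg hd, mul_assoc]
      · rw [Finset.prod_insert hpQ, if_neg hd]
        ring

theorem E_sum {ι : Type} (Q : Finset ι) (f : ι → ℝ) :
    ∏ p ∈ Q, E 0 (f p) = E 0 (∑ p ∈ Q, f p) := by
  classical
  induction Q using Finset.induction_on with
  | empty => simp [E_zero]
  | insert p Q hp ih => rw [Finset.prod_insert hp, Finset.sum_insert hp, ih, E_mul, add_zero]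

open Classical in
theorem log_sq {α : Type} {N : α → ℕ} {ρ δ : ℝ} (hN : AxA N ρ δ) {S Q : Finset α} (h : S ⊆ Q) :
    Real.log (nS N S) = ∑ p ∈ Q, if p ∈ S then Real.log (N p) else 0 := by
  have hQ : Q.filter (fun p => p ∈ S) = S := by
    ext p
    rw [Finset.mem_filter]
    exact ⟨fun h => h.2, fun hp => ⟨h hp, hp⟩⟩
  rw [← Finset.sum_filter, hQ]
  unfold nS
  push_cast
  rw [Real.log_prod]
  intro p _
  have := hN.two p
  have : 0 < N p := by omega
  positivity

open Classical in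
theorem sum_log {α : Type} {N : α → ℕ} {ρ δ : ℝ} (hN : AxA N ρ δ) (S₁ S₂ : Finset α) :
    ∑ p ∈ S₁ ∪ S₂, (if p ∈ S₁ ∧ p ∈ S₂ then 2 * Real.log (N p) else Real.log (N p)) =
      Real.log (nS N S₁) + Real.log (nS N S₂) := by
  rw [log_sq hN (Finset.subset_union_left (s₁ := S₁) (s₂ := S₂)),
    log_sq hN (Finset.subset_union_right (s₁ := S₁) (s₂ := S₂)), ← Finset.sum_add_distrib]
  refine Finset.sum_congr rfl fun p hp => ?_
  rcases Finset.mem_union.1 hp with hd | hd
  · by_cases hd2 : p ∈ S₂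
    · simp [hd, hd2]; ring
    · simp [hd, hd2]
  · by_cases hd2 : p ∈ S₁
    · simp [hd, hd2]; ring
    · simp [hd, hd2]

theorem Ph_E {α : Type} (N : α → ℕ) (V : ℝ → ℝ) (c l x y : ℝ) :
    Ph N V c l (E x y) = SS N V c (l - x) (l - y) := lin_E _ x y

open Classical in
theorem hs_ind {α : Type} {N : α → ℕ} {ρ δ : ℝ} {V : ℝ → ℝ} (hN : AxA N ρ δ)
    (hS : ∀ Y : ℝ, Summable (fun x : (α →₀ ℕ) × (α →₀ ℕ) =>
      |V ((nF N x.1 : ℝ) ^ 2 * nF N x.2 * Real.exp (-Y)) * (1 + Real.log (nF N x.2)) /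
        ((nF N x.1 : ℝ) * nF N x.2)|)) (c₁ D : ℝ) (hD : 0 < D) (c : ℝ) (hc : 0 < c)
    (a b : α →₀ ℕ) (k : ℝ) :
    HasSum (fun x : (α →₀ ℕ) × (α →₀ ℕ) =>
      V ((nF N x.1 : ℝ) ^ 2 * nF N x.2 / (c * Real.sqrt D)) / ((nF N x.1 : ℝ) * nF N x.2) *
      (if (∀ p, a p ≤ x.2 p) ∧ (∀ p, b p ≤ x.1 p) then k else 0) *
        (Real.log (Real.sqrt D) - Real.log (nF N x.2) + c₁))
      (Ph N V c₁ (Real.log (Real.sqrt D)) (((k / ((nF N a : ℝ) * nF N b)) •
        E (Real.log (nF N a)) (Real.log (nF N a * (nF N b : ℝ) ^ 2))) *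
          E 0 (-Real.log c))) := by
  have ha0 := hN.nF_pos a
  have hb0 := hN.nF_pos b
  have hs : 0 < Real.sqrt D := Real.sqrt_pos.2 hD
  rw [smul_mul_assoc, E_mul, map_smul, Ph_E, smul_eq_mul, add_zero]
  set l := Real.log (Real.sqrt D) with hl
  set v := l - (Real.log (nF N a * (nF N b : ℝ) ^ 2) + -Real.log c) with hv
  have hev : Real.exp (-v) = nF N a * (nF N b : ℝ) ^ 2 / (c * Real.sqrt D) := by
    have : -v = Real.log (nF N a * (nF N b : ℝ) ^ 2 / (c * Real.sqrt D)) := by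
      rw [Real.log_div (by positivity) (by positivity), Real.log_mul hc.ne' hs.ne', hv]
      ring
    rw [this, Real.exp_log (by positivity)]
  have hsum := hS v
  have hlog : ∀ x : (α →₀ ℕ) × (α →₀ ℕ), 0 ≤ Real.log (nF N x.2) := fun x =>
    Real.log_natCast_nonneg _
  have hs0 : Summable (fun x : (α →₀ ℕ) × (α →₀ ℕ) =>
      V ((nF N x.1 : ℝ) ^ 2 * nF N x.2 * Real.exp (-v)) / ((nF N x.1 : ℝ) * nF N x.2)) := by
    refine Summable.of_norm_bounded hsum fun x => ?_
    rw [Real.norm_eq_abs, mul_div_right_comm, abs_mul]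
    refine le_mul_of_one_le_right (abs_nonneg _) ?_
    rw [abs_of_nonneg (by linarith [hlog x])]
    linarith [hlog x]
  have hs1 : Summable (fun x : (α →₀ ℕ) × (α →₀ ℕ) =>
      V ((nF N x.1 : ℝ) ^ 2 * nF N x.2 * Real.exp (-v)) *
      Real.log (nF N x.2) / ((nF N x.1 : ℝ) * nF N x.2)) := by
    refine Summable.of_norm_bounded hsum fun x => ?_
    rw [Real.norm_eq_abs, mul_div_right_comm, abs_mul, mul_div_right_comm, abs_mul]
    refine mul_le_mul_of_nonneg_left ?_ (abs_nonneg _)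
    rw [abs_of_nonneg (hlog x), abs_of_nonneg (by linarith [hlog x])]
    linarith
  have hS' : HasSum (fun x : (α →₀ ℕ) × (α →₀ ℕ) =>
      k / ((nF N a : ℝ) * nF N b) * ((l - Real.log (nF N a) + c₁) *
      (V ((nF N x.1 : ℝ) ^ 2 * nF N x.2 * Real.exp (-v)) / ((nF N x.1 : ℝ) * nF N x.2)) -
      V ((nF N x.1 : ℝ) ^ 2 * nF N x.2 * Real.exp (-v)) * Real.log (nF N x.2) /
        ((nF N x.1 : ℝ) * nF N x.2)))
      (k / ((nF N a : ℝ) * nF N b) * SS N V c₁ (l - Real.log (nF N a)) v) :=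
    ((hs0.hasSum.mul_left _).sub hs1.hasSum).mul_left _
  have hg : Function.Injective
      (fun x : (α →₀ ℕ) × (α →₀ ℕ) => (b + x.1, a + x.2)) := by
    rintro ⟨x1, x2⟩ ⟨y1, y2⟩ h
    simp only [Prod.mk.injEq] at h
    rw [Prod.mk.injEq]
    exact ⟨add_left_cancel h.1, add_left_cancel h.2⟩
  refine (hg.hasSum_iff ?_).1 ?_
  · rintro ⟨x1, x2⟩ hx
    have : ¬ ((∀ p, a p ≤ x2 p) ∧ (∀ p, b p ≤ x1 p)) := by
      rintro ⟨h1, h2⟩
      obtain ⟨u, hu⟩ := exists_add_of_le (show a ≤ x2 from h1)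
      obtain ⟨t, ht⟩ := exists_add_of_le (show b ≤ x1 from h2)
      exact hx ⟨(t, u), by rw [hu, ht]⟩
    simp only [if_neg this, mul_zero, zero_mul]
  · refine hS'.congr_fun ?_
    rintro ⟨x1, x2⟩
    simp only [Function.comp]
    rw [if_pos ⟨fun p => by rw [Finsupp.add_apply]; omega,
      fun p => by rw [Finsupp.add_apply]; omega⟩]
    have h10 := hN.nF_pos x1
    have h20 := hN.nF_pos x2
    rw [nF_add, nF_add]
    push_cast
    have e1 : ((nF N b : ℝ) * nF N x1) ^ 2 * (nF N a * nF N x2) / (c * Real.sqrt D) =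
        (nF N x1 : ℝ) ^ 2 * nF N x2 * Real.exp (-v) := by
      rw [hev]
      ring
    rw [e1, Real.log_mul ha0.ne' h20.ne']
    field_simp
    ring

theorem hs_Rp {α : Type} {N : α → ℕ} {ρ δ : ℝ} {V : ℝ → ℝ} (hN : AxA N ρ δ)
    (hS : ∀ Y : ℝ, Summable (fun x : (α →₀ ℕ) × (α →₀ ℕ) =>
      |V ((nF N x.1 : ℝ) ^ 2 * nF N x.2 * Real.exp (-Y)) * (1 + Real.log (nF N x.2)) /
        ((nF N x.1 : ℝ) * nF N x.2)|)) (c₁ D : ℝ) (hD : 0 < D) (c : ℝ) (hc : 0 < c)
    {Q : Finset α} {W : (α →₀ ℕ) → (α →₀ ℕ) → ℝ} {r : GR} (h : Rp N Q W r) :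
    HasSum (fun x : (α →₀ ℕ) × (α →₀ ℕ) =>
      V ((nF N x.1 : ℝ) ^ 2 * nF N x.2 / (c * Real.sqrt D)) / ((nF N x.1 : ℝ) * nF N x.2) *
      W x.1 x.2 * (Real.log (Real.sqrt D) - Real.log (nF N x.2) + c₁))
      (Ph N V c₁ (Real.log (Real.sqrt D)) (r * E 0 (-Real.log c))) := by
  classical
  induction h with
  | zero h =>
    rw [zero_mul, map_zero]
    simp only [h, mul_zero, zero_mul]
    exact hasSum_zero
  | ind a b k _ _ hW =>
    simp only [hW]
    exact hs_ind hN hS c₁ D hD c hc a b k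
  | add _ _ hW ih ih' =>
    rw [add_mul, map_add]
    refine (ih.add ih').congr_fun fun x => ?_
    rw [hW]
    ring

/-- the main term for fixed discriminant as a value of the functional `Ph` -/
theorem pf_MNR (h_SSA : T_SSA) : T_MNR := by
  classical
  intro α N ρ δ V hN hV c ν D S₁ S₂ w T f hν hD hT hw
  have hS := (h_SSA α N ρ δ V hN hV).1
  have h10 := hN.nS_pos S₁
  have h20 := hN.nS_pos S₂
  have hRp0 : Rp N (S₁ ∪ S₂)
      (fun e A => ∑ x ∈ T, if (∀ p, x.1 p ≤ A p) ∧ (∀ p, x.2 p ≤ e p) then f x else 0)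
      (∑ x ∈ T, (f x / ((nF N x.1 : ℝ) * nF N x.2)) •
        E (Real.log (nF N x.1)) (Real.log (nF N x.1 * (nF N x.2 : ℝ) ^ 2))) := by
    refine Rp.sum T (fun x e A => if (∀ p, x.1 p ≤ A p) ∧ (∀ p, x.2 p ≤ e p) then f x else 0) _
      fun x hx => ?_
    exact Rp.ind x.1 x.2 (f x) (fun p hp => (hT x hx p (Finset.mem_union.1 hp)).1)
      (fun p hp => (hT x hx p (Finset.mem_union.1 hp)).2) fun e A => rfl
  have hRp1 := Rp.prod hN S₁ S₂ _ _ _ hRp0
  have hRp2 := hs_Rp hN hS c D hD (ν * nS N S₁ * nS N S₂) (by positivity) hRp1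
  have hka : ∏ p ∈ S₁ ∪ S₂, (if p ∈ S₁ ∧ p ∈ S₂ then
      E 0 (2 * Real.log (N p)) * (et (N p) + al (N p) ^ 2)
        else E 0 (Real.log (N p)) * al (N p)) =
      E 0 (Real.log (nS N S₁) + Real.log (nS N S₂)) * ka N S₁ S₂ := by
    unfold ka
    rw [← sum_log hN S₁ S₂, ← E_sum, ← Finset.prod_mul_distrib]
    refine Finset.prod_congr rfl fun p _ => ?_
    split_ifs <;> rfl
  have hr : (∑ x ∈ T, (f x / ((nF N x.1 : ℝ) * nF N x.2)) •
      E (Real.log (nF N x.1)) (Real.log (nF N x.1 * (nF N x.2 : ℝ) ^ 2))) *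
        E 0 (-Real.log ν) =
      ∑ x ∈ T, (f x / ((nF N x.1 : ℝ) * nF N x.2)) •
        E (Real.log (nF N x.1)) (Real.log (nF N x.1 * (nF N x.2 : ℝ) ^ 2 / ν)) := by
    rw [Finset.sum_mul]
    refine Finset.sum_congr rfl fun x hx => ?_
    have hx1 := hN.nF_pos x.1
    have hx2 := hN.nF_pos x.2
    rw [smul_mul_assoc, E_mul, add_zero, Real.log_div (by positivity) hν.ne', sub_eq_add_neg]
  have hE : E 0 (Real.log (nS N S₁) + Real.log (nS N S₂)) *
      E 0 (-Real.log (ν * nS N S₁ * nS N S₂)) = E 0 (-Real.log ν) := by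
    rw [E_mul, Real.log_mul (by positivity) h20.ne', Real.log_mul hν.ne' h10.ne']
    congr 1 <;> ring
  rw [hka] at hRp2
  rw [← hr]
  have hfin : ∀ r k : GR, r * (E 0 (Real.log (nS N S₁) + Real.log (nS N S₂)) * k) *
      E 0 (-Real.log (ν * nS N S₁ * nS N S₂)) = r * E 0 (-Real.log ν) * k := by
    intro r k
    rw [← hE]
    ring
  rw [hfin] at hRp2
  rw [← hRp2.tsum_eq]
  unfold Mn
  refine tsum_congr ?_
  rintro ⟨e, A⟩
  have he0 := hN.nF_pos e
  have hA0 := hN.nF_pos A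
  have hsD : 0 < Real.sqrt D := Real.sqrt_pos.2 hD
  have hsq : Real.sqrt ((nF N e : ℝ) ^ 2 * nF N A) = nF N e * Real.sqrt (nF N A) := by
    rw [Real.sqrt_mul (by positivity), Real.sqrt_sq he0.le]
  have hAs : Real.sqrt (nF N A : ℝ) * Real.sqrt (nF N A) = nF N A := Real.mul_self_sqrt hA0.le
  simp only
  rw [hw e A, hsq]
  unfold Nb
  rw [Real.log_div hsD.ne' hA0.ne']
  have hsA : 0 < Real.sqrt (nF N A : ℝ) := Real.sqrt_pos.2 hA0
  have : ∀ V W N' L : ℝ, V / (nF N e * Real.sqrt (nF N A)) * W * N' *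
      (L / Real.sqrt (nF N A)) =
      V / ((nF N e : ℝ) * nF N A) * (W * N') * L := by
    intro V W N' L
    conv_rhs => rw [← hAs]
    field_simp
  rw [this]

end Pool.Agent.H64.NVK
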