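import Pool.Agent.H89.NV.TU2

set_option autoImplicit false

/-!
# NVK, part U: one Hecke operator on sums over vectors (row U_HK1)
-/

open MeasureTheory Set Filter NumberField NumberField.InfinitePlace
open Pool.Agent.H65.CM4 Pool.Agent.H61.NVK Pool.Agent.H89.NV
open scoped Real nonZeroDivisors

namespace Pool.Agent.H64.NVK

set_option linter.unusedSectionVars false

section

variable {k : Type} [Field k] [NumberField k]

variable (k) in
/-- the orbits of the units on the vectors -/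
abbrev QU : Type := Quotient (MulAction.orbitRel (𝓞 k)ˣ (V2 k))

theorem hk1_out {G : V2 k → ℝ} (hG : ∀ (ε : (𝓞 k)ˣ) (u : V2 k), G (ε • u) = G u) (q : QU k)
    (w : V2 k) (h : (Quotient.mk _ w : QU k) = q) : G (Quotient.out q) = G w := by
  have h1 : (Quotient.mk _ (Quotient.out q) : QU k) = Quotient.mk _ w := by
    rw [Quotient.out_eq, h]
  have h2 := Quotient.exact h1
  obtain ⟨ε, hε⟩ := (MulAction.orbitRel_apply.1 h2)
  rw [← hε]
  exact hG ε w

theorem hk1_fo_mem (q : QU k) (h : Quotient.out q ≠ 0) : Quotient.out q ∈ Fo k := by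
  refine ⟨h, ?_⟩
  rw [Quotient.out_eq]

open Classical in
theorem hk1_fo_tsum {G : V2 k → ℝ} (hG0 : G 0 = 0) :
    (∑' u : V2 k, if u ∈ Fo k then G u else 0) = ∑' q : QU k, G (Quotient.out q) := by
  have hi : Function.Injective (Quotient.out : QU k → V2 k) := Quotient.out_injective
  have h1 := hi.tsum_eq (f := fun u : V2 k => if u ∈ Fo k then G u else 0) (by
    intro u hu
    have h2 : u ∈ Fo k := by
      by_contra hcon
      apply hu
      simp only [if_neg hcon]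
    exact ⟨Quotient.mk _ u, h2.2.symm⟩)
  rw [← h1]
  apply tsum_congr
  intro q
  by_cases h : Quotient.out q = 0
  · rw [h, hG0, ite_self]
  · rw [if_pos (hk1_fo_mem q h)]

theorem hk1_orb_iff {T : V2 k ≃ V2 k} (hT : ∀ (ε : (𝓞 k)ˣ) (u : V2 k), T (ε • u) = ε • T u)
    (u w : V2 k) : MulAction.orbitRel (𝓞 k)ˣ (V2 k) u w ↔
      MulAction.orbitRel (𝓞 k)ˣ (V2 k) (T u) (T w) := by
  rw [MulAction.orbitRel_apply, MulAction.orbitRel_apply]
  constructor
  · rintro ⟨ε, hε⟩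
    refine ⟨ε, ?_⟩
    simp only [] at hε ⊢
    rw [← hε, hT]
  · rintro ⟨ε, hε⟩
    refine ⟨ε, ?_⟩
    simp only [] at hε ⊢
    apply T.injective
    rw [hT, hε]

theorem hk1_lin {T : V2 k ≃ V2 k} (hT : ∀ (ε : (𝓞 k)ˣ) (u : V2 k), T (ε • u) = ε • T u)
    {G : V2 k → ℝ} (hG : ∀ (ε : (𝓞 k)ˣ) (u : V2 k), G (ε • u) = G u) :
    (∑' q : QU k, G (T (Quotient.out q)) = ∑' q : QU k, G (Quotient.out q)) ∧
    (Summable (fun q : QU k => G (Quotient.out q)) →
      Summable (fun q : QU k => G (T (Quotient.out q)))) := by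
  let e : QU k ≃ QU k := Quotient.congr T (hk1_orb_iff hT)
  have h1 : ∀ q : QU k, G (T (Quotient.out q)) = G (Quotient.out (e q)) := by
    intro q
    symm
    apply hk1_out hG
    have h2 : e (Quotient.mk _ (Quotient.out q)) = Quotient.mk _ (T (Quotient.out q)) := rfl
    rw [← h2, Quotient.out_eq]
  constructor
  · simp only [h1]
    exact e.tsum_eq (fun q => G (Quotient.out q))
  · intro h
    simp only [h1]
    exact (e.summable_iff (f := fun q => G (Quotient.out q))).2 h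

theorem hk1_smul_inj {s : 𝓞 k} (hs : s ≠ 0) {u w : V2 k} (h : s • u = s • w) : u = w := by
  have h1 : s * u.1 = s * w.1 := congrArg Prod.fst h
  have h2 : s * u.2 = s * w.2 := congrArg Prod.snd h
  exact Prod.ext (mul_left_cancel₀ hs h1) (mul_left_cancel₀ hs h2)

theorem hk1_comm (s : 𝓞 k) (ε : (𝓞 k)ˣ) (u : V2 k) : ε • (s • u) = s • (ε • u) := by
  rw [Units.smul_def, Units.smul_def, smul_smul, smul_smul, mul_comm]

theorem hk1_scale {s : 𝓞 k} (hs : s ≠ 0) {G1 G2 : V2 k → ℝ}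
    (hG2 : ∀ (ε : (𝓞 k)ˣ) (u : V2 k), G2 (ε • u) = G2 u)
    (h12 : ∀ u, G2 (s • u) = G1 u) (h0 : ∀ w, G2 w ≠ 0 → ∃ u, w = s • u) :
    (∑' q : QU k, G2 (Quotient.out q) = ∑' q : QU k, G1 (Quotient.out q)) ∧
    (Summable (fun q : QU k => G2 (Quotient.out q)) ↔
      Summable (fun q : QU k => G1 (Quotient.out q))) := by
  let m : QU k → QU k := Quotient.map (fun u : V2 k => s • u) (by
    intro u w h
    obtain ⟨ε, hε⟩ := MulAction.orbitRel_apply.1 h
    apply MulAction.orbitRel_apply.2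
    refine ⟨ε, ?_⟩
    simp only [] at hε ⊢
    rw [← hε, hk1_comm])
  have hm : ∀ u : V2 k, m (Quotient.mk _ u) = Quotient.mk _ (s • u) := fun _ => rfl
  have hinj : Function.Injective m := by
    intro p q hpq
    rw [← Quotient.out_eq p, ← Quotient.out_eq q, hm, hm] at hpq
    obtain ⟨ε, hε⟩ := MulAction.orbitRel_apply.1 (Quotient.exact hpq)
    simp only [] at hε
    rw [hk1_comm] at hε
    have h1 := hk1_smul_inj hs hε
    rw [← Quotient.out_eq p, ← Quotient.out_eq q]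
    apply Quotient.sound
    apply MulAction.orbitRel_apply.2
    exact ⟨ε, h1⟩
  have hsupp : Function.support (fun q : QU k => G2 (Quotient.out q)) ⊆ Set.range m := by
    intro q hq
    obtain ⟨u, hu⟩ := h0 _ hq
    refine ⟨Quotient.mk _ u, ?_⟩
    rw [hm, ← hu, Quotient.out_eq]
  have hval : ∀ q : QU k, G2 (Quotient.out (m q)) = G1 (Quotient.out q) := by
    intro q
    rw [← h12]
    apply hk1_out hG2
    rw [← hm, Quotient.out_eq]
  constructor
  · have h1 := hinj.tsum_eq hsupp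
    rw [← h1]
    exact tsum_congr hval
  · have h1 := hinj.summable_iff (f := fun q : QU k => G2 (Quotient.out q)) (by
      intro q hq
      by_contra hcon
      exact hq (hsupp hcon))
    rw [← h1]
    have h2 : (fun q : QU k => G2 (Quotient.out q)) ∘ m = fun q : QU k => G1 (Quotient.out q) := by
      funext q
      exact hval q
    rw [h2]

theorem hk1_mem_Lb {a B : Ideal (𝓞 k)} {u : V2 k} :
    u ∈ Lb a B ↔ u.1 ∈ a * B ∧ u.2 ∈ a := Submodule.mem_prod

end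

section

variable {k : Type} [Field k] [NumberField k] [IsTotallyReal k]

open Classical in
/-- the function summed over the vectors modulo the units -/
noncomputable def hk1G (f : Ideal (𝓞 k)) (H : VV k) (A : Ideal (𝓞 k)) (b : 𝓞 k) (J : Ideal (𝓞 k))
    (u : V2 k) : ℝ :=
  if u ∈ Lb J (A * f) ∧ u ≠ 0 then H J A b u else 0

theorem hk1_Vs (f : Ideal (𝓞 k)) (H : VV k) (A : Ideal (𝓞 k)) (b : 𝓞 k) :
    Vs f H A b = ∑ a : ClassGroup (𝓞 k), ∑' q : QU k, hk1G f H A b (ci a) (Quotient.out q) := by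
  classical
  unfold Vs
  apply Finset.sum_congr rfl
  intro a _
  rw [← hk1_fo_tsum (G := hk1G f H A b (ci a)) (by
    unfold hk1G
    rw [if_neg (fun h => h.2 rfl)])]
  apply tsum_congr
  intro u
  unfold hk1G
  by_cases h1 : u ∈ Fo k
  · by_cases h2 : u ∈ Lb (ci a) (A * f)
    · rw [if_pos ⟨h2, h1⟩, if_pos h1, if_pos ⟨h2, h1.1⟩]
    · rw [if_neg (fun h => h2 h.1), if_pos h1, if_neg (fun h => h2 h.1)]
  · rw [if_neg (fun h => h1 h.2), if_neg h1]

theorem hk1_ci_ne (a : ClassGroup (𝓞 k)) : ci a ≠ ⊥ := by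
  have := (cr a).2
  exact nonZeroDivisors.ne_zero this

variable {f : Ideal (𝓞 k)} {D : 𝓞 k} {H : VV k}

/-- invariance under homotheties -/
def hk1Inv (f : Ideal (𝓞 k)) (D : 𝓞 k) (H : VV k) : Prop :=
  ∀ (a A : Ideal (𝓞 k)) (b t : 𝓞 k) (u : V2 k), t ≠ 0 → a ≠ ⊥ → Fm f D A b →
    u ∈ Lb a (A * f) → H (Ideal.span {t} * a) A b (t • u) = H a A b u

theorem hk1_unit (hH : hk1Inv f D H) {A : Ideal (𝓞 k)} {b : 𝓞 k} (hF : Fm f D A b)
    {J : Ideal (𝓞 k)} (hJ : J ≠ ⊥) (ε : (𝓞 k)ˣ) (u : V2 k) :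
    hk1G f H A b J (ε • u) = hk1G f H A b J u := by
  classical
  have hε0 : (ε : 𝓞 k) ≠ 0 := ε.ne_zero
  have h1 : ε • u ∈ Lb J (A * f) ↔ u ∈ Lb J (A * f) := by
    rw [Units.smul_def]
    constructor
    · intro h
      have h2 := (Lb J (A * f)).smul_mem ((ε⁻¹ : (𝓞 k)ˣ) : 𝓞 k) h
      rw [smul_smul, Units.inv_mul, one_smul] at h2
      exact h2
    · intro h
      exact (Lb J (A * f)).smul_mem _ h
  have h2 : ε • u ≠ 0 ↔ u ≠ 0 := by
    rw [Units.smul_def]
    constructor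
    · intro h h3
      apply h
      rw [h3, smul_zero]
    · intro h h3
      apply h
      apply hk1_smul_inj hε0
      rw [h3, smul_zero]
  unfold hk1G
  by_cases h3 : u ∈ Lb J (A * f) ∧ u ≠ 0
  · rw [if_pos ⟨h1.2 h3.1, h2.2 h3.2⟩, if_pos h3]
    have h4 := hH J A b (ε : 𝓞 k) u hε0 hJ hF h3.1
    have h5 : Ideal.span {(ε : 𝓞 k)} * J = J := by
      rw [Ideal.span_singleton_eq_top.2 ε.isUnit, Ideal.top_mul]
    rw [h5] at h4
    exact h4
  · rw [if_neg h3, if_neg (fun h => h3 ⟨h1.1 h.1, h2.1 h.2⟩)]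

theorem hk1_hom (hH : hk1Inv f D H) {A : Ideal (𝓞 k)} {b : 𝓞 k} (hF : Fm f D A b)
    {J : Ideal (𝓞 k)} (hJ : J ≠ ⊥) {s : 𝓞 k} (hs : s ≠ 0) :
    (∑' q : QU k, hk1G f H A b (Ideal.span {s} * J) (Quotient.out q) =
      ∑' q : QU k, hk1G f H A b J (Quotient.out q)) ∧
    (Summable (fun q : QU k => hk1G f H A b (Ideal.span {s} * J) (Quotient.out q)) ↔
      Summable (fun q : QU k => hk1G f H A b J (Quotient.out q))) := by
  classical
  have hspan : Ideal.span {s} ≠ ⊥ := by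
    rw [Ne, Ideal.span_singleton_eq_bot]
    exact hs
  have hsJ : Ideal.span {s} * J ≠ ⊥ := mul_ne_zero hspan hJ
  have hmem : ∀ (I : Ideal (𝓞 k)) (x : 𝓞 k), s * x ∈ Ideal.span {s} * I ↔ x ∈ I := by
    intro I x
    rw [Ideal.mem_span_singleton_mul]
    constructor
    · rintro ⟨z, hz, h⟩
      rw [← mul_left_cancel₀ hs h]
      exact hz
    · intro h
      exact ⟨x, h, rfl⟩
  have hLb : ∀ u : V2 k, s • u ∈ Lb (Ideal.span {s} * J) (A * f) ↔ u ∈ Lb J (A * f) := by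
    intro u
    rw [hk1_mem_Lb, hk1_mem_Lb, mul_assoc]
    have e1 : (s • u).1 = s * u.1 := rfl
    have e2 : (s • u).2 = s * u.2 := rfl
    rw [e1, e2, hmem, hmem]
  apply hk1_scale hs (hk1_unit hH hF hsJ)
  · intro u
    unfold hk1G
    by_cases h3 : u ∈ Lb J (A * f) ∧ u ≠ 0
    · have h4 : s • u ≠ 0 := by
        intro h
        apply h3.2
        apply hk1_smul_inj hs
        rw [h, smul_zero]
      rw [if_pos h3, if_pos ⟨(hLb u).2 h3.1, h4⟩]
      exact hH J A b s u hs hJ hF h3.1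
    · rw [if_neg h3, if_neg]
      rintro ⟨h4, h5⟩
      apply h3
      refine ⟨(hLb u).1 h4, ?_⟩
      rintro rfl
      apply h5
      rw [smul_zero]
  · intro w hw
    have h3 : w ∈ Lb (Ideal.span {s} * J) (A * f) := by
      by_contra h
      apply hw
      unfold hk1G
      rw [if_neg (fun h' => h h'.1)]
    rw [hk1_mem_Lb, mul_assoc] at h3
    obtain ⟨x, -, hx⟩ := Ideal.mem_span_singleton_mul.1 h3.1
    obtain ⟨y, -, hy⟩ := Ideal.mem_span_singleton_mul.1 h3.2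
    exact ⟨(x, y), Prod.ext hx.symm hy.symm⟩

theorem hk1_class (hH : hk1Inv f D H) {A : Ideal (𝓞 k)} {b : 𝓞 k} (hF : Fm f D A b)
    (I J : (Ideal (𝓞 k))⁰) (h : ClassGroup.mk0 I = ClassGroup.mk0 J) :
    (∑' q : QU k, hk1G f H A b (I : Ideal (𝓞 k)) (Quotient.out q) =
      ∑' q : QU k, hk1G f H A b (J : Ideal (𝓞 k)) (Quotient.out q)) ∧
    (Summable (fun q : QU k => hk1G f H A b (I : Ideal (𝓞 k)) (Quotient.out q)) ↔
      Summable (fun q : QU k => hk1G f H A b (J : Ideal (𝓞 k)) (Quotient.out q))) := by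
  have hI : (I : Ideal (𝓞 k)) ≠ ⊥ := nonZeroDivisors.ne_zero I.2
  have hJ : (J : Ideal (𝓞 k)) ≠ ⊥ := nonZeroDivisors.ne_zero J.2
  obtain ⟨x, y, hx, hy, hxy⟩ := ClassGroup.mk0_eq_mk0_iff.1 h
  have h1 := hk1_hom hH hF hI hx
  have h2 := hk1_hom hH hF hJ hy
  rw [hxy] at h1
  exact ⟨h1.1.symm.trans h2.1, h1.2.symm.trans h2.2⟩

theorem hk1_sum_ci (hGRW : T_GRW k) (hf : f ≠ ⊥) (hD : tp D)
    (hbd : ∃ C : ℝ, ∀ (a A : Ideal (𝓞 k)) (b : 𝓞 k) (u : V2 k), a ≠ ⊥ → Fm f D A b →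
      u ∈ Lb a (A * f) → u ≠ 0 → |H a A b u| ≤ C / nf a A f (em b) (em D) u ^ 2)
    {A : Ideal (𝓞 k)} {b : 𝓞 k} (hF : Fm f D A b) (a : ClassGroup (𝓞 k)) :
    Summable (fun q : QU k => hk1G f H A b (ci a) (Quotient.out q)) := by
  classical
  obtain ⟨C, hC⟩ := hbd
  obtain ⟨C', j, -, hG⟩ := hGRW f D hf hD
  have h1 := (hG A b hF).1 a
  have h2 : Summable (fun u : V2 k => if u ∈ Lb (ci a) (A * f) ∧ u ∈ Fo k then
      1 / nf (ci a) A f (em b) (em D) u ^ 2 else 0) := by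
    have h3 := (summable_subtype_iff_indicator (s := {u : V2 k | u ∈ Lb (ci a) (A * f) ∧ u ∈ Fo k})
      (f := fun u => 1 / nf (ci a) A f (em b) (em D) u ^ 2)).1 h1
    refine h3.congr fun u => ?_
    by_cases h : u ∈ Lb (ci a) (A * f) ∧ u ∈ Fo k
    · rw [if_pos h, indicator_of_mem (show u ∈ {u : V2 k | u ∈ Lb (ci a) (A * f) ∧ u ∈ Fo k} from h)]
    · rw [if_neg h, indicator_of_notMem
        (show u ∉ {u : V2 k | u ∈ Lb (ci a) (A * f) ∧ u ∈ Fo k} from h)]
  have h4 : Summable (fun q : QU k => C * (if Quotient.out q ∈ Lb (ci a) (A * f) ∧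
      Quotient.out q ∈ Fo k then 1 / nf (ci a) A f (em b) (em D) (Quotient.out q) ^ 2 else 0)) :=
    (h2.comp_injective (i := (Quotient.out : QU k → V2 k)) Quotient.out_injective).mul_left C
  refine Summable.of_norm_bounded h4 fun q => ?_
  unfold hk1G
  rw [Real.norm_eq_abs]
  by_cases h : Quotient.out q ∈ Lb (ci a) (A * f) ∧ Quotient.out q ≠ 0
  · rw [if_pos h, if_pos ⟨h.1, hk1_fo_mem q h.2⟩, mul_one_div]
    exact hC _ _ _ _ (hk1_ci_ne a) hF h.1 h.2
  · rw [if_neg h, if_neg (fun h' => h ⟨h'.1, h'.2.1⟩), abs_zero, mul_zero]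

/-- the shear -/
def hk1T (j : 𝓞 k) : V2 k ≃ V2 k where
  toFun u := (u.1 - j * u.2, u.2)
  invFun u := (u.1 + j * u.2, u.2)
  left_inv u := by simp
  right_inv u := by simp

theorem hk1_T_smul (j : 𝓞 k) (ε : (𝓞 k)ˣ) (u : V2 k) : hk1T j (ε • u) = ε • hk1T j u := by
  rw [Units.smul_def, Units.smul_def]
  apply Prod.ext
  · change (ε : 𝓞 k) * u.1 - j * ((ε : 𝓞 k) * u.2) = (ε : 𝓞 k) * (u.1 - j * u.2)
    ring
  · rfl

open Classical in
theorem pf_HK1 (_hRSB : T_RSB k) (hIDL : T_IDL k) (hTRV : T_TRV k) (hGRW : T_GRW k) : T_HK1 k := by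
  intro f D P H hf hD hH hbd A b hF
  obtain ⟨-, hc, -, -, hrt, hdv⟩ := hTRV f A D b hf hF
  have hP0 : P.1 ≠ ⊥ := P.2.2
  obtain ⟨c, hcd⟩ : ∃ c, c = q4 (b ^ 2 + D) := ⟨_, rfl⟩
  rw [← hcd] at hrt
  have hrtF : ∀ j ∈ rts f P.1 A b c, Fm f D (P.1 * A) (b + 2 * j) := fun j hj =>
    (hrt P.1 j hP0 hj).1
  have hjm : ∀ j ∈ rts f P.1 A b c, j ∈ A * f := by
    intro j hj
    unfold rts at hj
    exact (Finset.mem_filter.1 hj).2.1
  -- the first function
  have g1 : ∀ (a : ClassGroup (𝓞 k)), P.1 ∣ A →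
      (∑' q : QU k, hk1G f H (dvi A P.1) b (P.1 * ci a) (Quotient.out q) =
        ∑' q : QU k, hk1G f H (dvi A P.1) b (ci (ClassGroup.mk0
          ⟨P.1, mem_nonZeroDivisors_of_ne_zero hP0⟩ * a)) (Quotient.out q)) ∧
      Summable (fun q : QU k => hk1G f H (dvi A P.1) b (P.1 * ci a) (Quotient.out q)) := by
    intro a hPA
    have hF' := hdv P.1 hPA
    have h1 := hk1_class (H := H) hH hF'
      (⟨P.1, mem_nonZeroDivisors_of_ne_zero hP0⟩ * cr a)
      (cr (ClassGroup.mk0 ⟨P.1, mem_nonZeroDivisors_of_ne_zero hP0⟩ * a)) (by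
        have e1 : ∀ x : ClassGroup (𝓞 k), ClassGroup.mk0 (cr x) = x := fun x =>
          Function.surjInv_eq ClassGroup.mk0_surjective x
        rw [map_mul, e1, e1])
    exact ⟨h1.1, h1.2.2 (hk1_sum_ci hGRW hf hD hbd hF' _)⟩
  -- the functions of the roots
  have g2 : ∀ (a : ClassGroup (𝓞 k)), ∀ j ∈ rts f P.1 A b c,
      (∑' q : QU k, hk1G f H (P.1 * A) (b + 2 * j) (ci a) (hk1T j (Quotient.out q)) =
        ∑' q : QU k, hk1G f H (P.1 * A) (b + 2 * j) (ci a) (Quotient.out q)) ∧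
      Summable (fun q : QU k =>
        hk1G f H (P.1 * A) (b + 2 * j) (ci a) (hk1T j (Quotient.out q))) := by
    intro a j hj
    have h1 := hk1_lin (T := hk1T j) (hk1_T_smul j)
      (G := hk1G f H (P.1 * A) (b + 2 * j) (ci a)) (hk1_unit hH (hrtF j hj) (hk1_ci_ne a))
    exact ⟨h1.1, h1.2 (hk1_sum_ci hGRW hf hD hbd (hrtF j hj) a)⟩
  -- the splitting
  have hsplit : ∀ (a : ClassGroup (𝓞 k)) (u : V2 k),
      hk1G f (fun a A b u => (if P.1 ∣ A ∧ u.2 ∈ P.1 * a then H (P.1 * a) (dvi A P.1) b u else 0) +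
        ∑ j ∈ (rts f P.1 A b (q4 (b ^ 2 + D))).filter
          (fun j => u.1 - j * u.2 ∈ P.1 * (a * (A * f))),
          H a (P.1 * A) (b + 2 * j) (u.1 - j * u.2, u.2)) A b (ci a) u =
      (if P.1 ∣ A then hk1G f H (dvi A P.1) b (P.1 * ci a) u else 0) +
        ∑ j ∈ rts f P.1 A b c, hk1G f H (P.1 * A) (b + 2 * j) (ci a) (hk1T j u) := by
    intro a u
    have hX : ∀ j ∈ rts f P.1 A b c, hk1G f H (P.1 * A) (b + 2 * j) (ci a) (hk1T j u) =
        if (u ∈ Lb (ci a) (A * f) ∧ u ≠ 0) ∧ u.1 - j * u.2 ∈ P.1 * (ci a * (A * f)) then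
          H (ci a) (P.1 * A) (b + 2 * j) (u.1 - j * u.2, u.2) else 0 := by
      intro j hj
      unfold hk1G
      have e1 : hk1T j u = (u.1 - j * u.2, u.2) := rfl
      have e2 : ci a * (P.1 * A * f) = P.1 * (ci a * (A * f)) := by ring
      have e3 : P.1 * (ci a * (A * f)) ≤ ci a * (A * f) := Ideal.mul_le_right
      have e4 : (hk1T j u ∈ Lb (ci a) (P.1 * A * f) ∧ hk1T j u ≠ 0) ↔
          ((u ∈ Lb (ci a) (A * f) ∧ u ≠ 0) ∧ u.1 - j * u.2 ∈ P.1 * (ci a * (A * f))) := by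
        rw [hk1_mem_Lb, hk1_mem_Lb, e1, e2]
        constructor
        · rintro ⟨⟨h1, h2⟩, h3⟩
          simp only [] at h1 h2
          refine ⟨⟨⟨?_, h2⟩, ?_⟩, h1⟩
          · have h4 : j * u.2 ∈ ci a * (A * f) := by
              rw [mul_comm j]
              exact Ideal.mul_mem_mul h2 (hjm j hj)
            have h5 := Ideal.add_mem _ (e3 h1) h4
            rw [sub_add_cancel] at h5
            exact h5
          · rintro rfl
            apply h3
            simp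
        · rintro ⟨⟨⟨h1, h2⟩, h3⟩, h4⟩
          refine ⟨⟨h4, h2⟩, ?_⟩
          intro h5
          apply h3
          have h6 : u.2 = 0 := congrArg Prod.snd h5
          have h7 : u.1 - j * u.2 = 0 := congrArg Prod.fst h5
          rw [h6, mul_zero, sub_zero] at h7
          exact Prod.ext h7 h6
      by_cases h : (u ∈ Lb (ci a) (A * f) ∧ u ≠ 0) ∧ u.1 - j * u.2 ∈ P.1 * (ci a * (A * f))
      · rw [if_pos h, if_pos (e4.2 h), e1]
      · rw [if_neg h, if_neg (fun h' => h (e4.1 h'))]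
    rw [Finset.sum_congr rfl hX]
    have hY : P.1 ∣ A → ((u ∈ Lb (P.1 * ci a) (dvi A P.1 * f) ∧ u ≠ 0) ↔
        ((u ∈ Lb (ci a) (A * f) ∧ u ≠ 0) ∧ u.2 ∈ P.1 * ci a)) := by
      intro hPA
      have e1 : P.1 * dvi A P.1 = A := (hIDL.2.1 A P.1 hF.ne hPA).1
      have e2 : P.1 * ci a * (dvi A P.1 * f) = ci a * (A * f) := by
        calc P.1 * ci a * (dvi A P.1 * f) = ci a * ((P.1 * dvi A P.1) * f) := by ring
          _ = _ := by rw [e1]
      rw [hk1_mem_Lb, hk1_mem_Lb, e2]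
      constructor
      · rintro ⟨⟨h1, h2⟩, h3⟩
        exact ⟨⟨⟨h1, Ideal.mul_le_right h2⟩, h3⟩, h2⟩
      · rintro ⟨⟨⟨h1, h2⟩, h3⟩, h4⟩
        exact ⟨⟨h1, h4⟩, h3⟩
    unfold hk1G
    beta_reduce
    rw [← hcd]
    by_cases h : u ∈ Lb (ci a) (A * f) ∧ u ≠ 0
    · rw [if_pos h]
      congr 1
      · by_cases hPA : P.1 ∣ A
        · rw [if_pos hPA]
          by_cases h2 : u.2 ∈ P.1 * ci a
          · rw [if_pos ⟨hPA, h2⟩, if_pos ((hY hPA).2 ⟨h, h2⟩)]
          · rw [if_neg (fun h' => h2 h'.2), if_neg (fun h' => h2 ((hY hPA).1 h').2)]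
        · rw [if_neg hPA, if_neg (fun h' => hPA h'.1)]
      · rw [Finset.sum_filter]
        apply Finset.sum_congr rfl
        intro j _
        by_cases h2 : u.1 - j * u.2 ∈ P.1 * (ci a * (A * f))
        · rw [if_pos h2, if_pos ⟨h, h2⟩]
        · rw [if_neg h2, if_neg (fun h' => h2 h'.2)]
    · rw [if_neg h]
      symm
      have e1 : (if P.1 ∣ A then (if u ∈ Lb (P.1 * ci a) (dvi A P.1 * f) ∧ u ≠ 0 then
          H (P.1 * ci a) (dvi A P.1) b u else 0) else 0) = 0 := by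
        by_cases hPA : P.1 ∣ A
        · rw [if_pos hPA, if_neg (fun h' => h ((hY hPA).1 h').1)]
        · rw [if_neg hPA]
      rw [e1, zero_add]
      apply Finset.sum_eq_zero
      intro j _
      rw [if_neg (fun h' => h h'.1)]
  rw [hk1_Vs f _ A b]
  simp only [hsplit]
  have hs1 : ∀ a : ClassGroup (𝓞 k), Summable (fun q : QU k =>
      if P.1 ∣ A then hk1G f H (dvi A P.1) b (P.1 * ci a) (Quotient.out q) else 0) := by
    intro a
    by_cases hPA : P.1 ∣ A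
    · simp only [if_pos hPA]
      exact (g1 a hPA).2
    · simp only [if_neg hPA]
      exact summable_zero
  have hs2 : ∀ a : ClassGroup (𝓞 k), ∀ j ∈ rts f P.1 A b c, Summable (fun q : QU k =>
      hk1G f H (P.1 * A) (b + 2 * j) (ci a) (hk1T j (Quotient.out q))) := fun a j hj =>
    (g2 a j hj).2
  have hA1 : ∀ a : ClassGroup (𝓞 k), ∑' q : QU k,
      ((if P.1 ∣ A then hk1G f H (dvi A P.1) b (P.1 * ci a) (Quotient.out q) else 0) +
        ∑ j ∈ rts f P.1 A b c,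
          hk1G f H (P.1 * A) (b + 2 * j) (ci a) (hk1T j (Quotient.out q))) =
      (if P.1 ∣ A then ∑' q : QU k, hk1G f H (dvi A P.1) b (P.1 * ci a) (Quotient.out q) else 0) +
        ∑ j ∈ rts f P.1 A b c,
          ∑' q : QU k, hk1G f H (P.1 * A) (b + 2 * j) (ci a) (Quotient.out q) := by
    intro a
    rw [(hs1 a).tsum_add (summable_sum (hs2 a)), Summable.tsum_finsetSum (hs2 a)]
    congr 1
    · by_cases hPA : P.1 ∣ A
      · simp only [if_pos hPA]
      · simp only [if_neg hPA, tsum_zero]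
    · exact Finset.sum_congr rfl fun j hj => (g2 a j hj).1
  rw [Finset.sum_congr rfl fun a _ => hA1 a, Finset.sum_add_distrib]
  unfold Tp
  rw [← hcd]
  congr 1
  · by_cases hPA : P.1 ∣ A
    · simp only [if_pos hPA]
      rw [hk1_Vs]
      rw [Finset.sum_congr rfl fun a _ => (g1 a hPA).1]
      exact (Equiv.sum_comp (Equiv.mulLeft (ClassGroup.mk0
        ⟨P.1, mem_nonZeroDivisors_of_ne_zero hP0⟩)) (fun a =>
          ∑' q : QU k, hk1G f H (dvi A P.1) b (ci a) (Quotient.out q))).symm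
    · simp only [if_neg hPA, Finset.sum_const_zero]
  · rw [Finset.sum_comm]
    apply Finset.sum_congr rfl
    intro j _
    exact hk1_Vs f H (P.1 * A) (b + 2 * j)

end

end Pool.Agent.H64.NVK
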